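import Mathlib
import Pool.Agent.H75.CharZ

/-! Solvable groups of every Fitting height with at most half of the character table zero. -/

set_option autoImplicit false

namespace Pool.Agent.Results.MP_c522d4_al.FewZeros

open Subgroup Pool.Agent.H75.CharZ
open scoped commutatorElement

/-- The Fitting subgroup: the join of the nilpotent normal subgroups. -/
def Fit (G : Type) [Group G] : Subgroup G := sSup {N | N.Normal ∧ Group.IsNilpotent N}

instance (G : Type) [Group G] : (Fit G).Normal := sSup_normal _ fun _ h => h.1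

/-- The Fitting series of `G` reaches `G` in `n` steps. -/
def Reach : ℕ → ∀ (G : Type) [Group G], Prop
  | 0, G, _ => Subsingleton G
  | n + 1, G, _ => Reach n (G ⧸ Fit G)

/-- The Fitting height. -/
noncomputable def height (G : Type) [Group G] : ℕ := sInf {n | Reach n G}

/-- The complex irreducible characters. -/
def Irr (G : Type) [Group G] : Set (G → ℂ) :=
  {χ | ∃ (n : ℕ) (ρ : G →* Module.End ℂ (Fin n → ℂ)), 0 < n ∧
    (∀ W : Submodule ℂ (Fin n → ℂ), (∀ g, ∀ w ∈ W, ρ g w ∈ W) → W = ⊥ ∨ W = ⊤) ∧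
    ∀ g, χ g = LinearMap.trace ℂ _ (ρ g)}

/-- The proportion of zeros in the character table. -/
noncomputable def zeroProp (G : Type) [Group G] : ℝ :=
  (Nat.card {x : ConjClasses G × Irr G // x.2.1 x.1.out = 0} : ℝ) /
    (Nat.card (ConjClasses G) * Nat.card (Irr G))

theorem fit_le {G H : Type} [Group G] [Group H] (e : G ≃* H) : map (e : G →* H) (Fit G) ≤ Fit H := by
  rw [map_le_iff_le_comap]
  refine sSup_le fun N hN => map_le_iff_le_comap.1 (le_sSup ⟨hN.1.map _ e.surjective, ?_⟩)
  haveI := hN.2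
  exact Group.nilpotent_of_mulEquiv (e.subgroupMap N)

theorem reach_congr (n : ℕ) : ∀ (G H : Type) [Group G] [Group H] (_ : G ≃* H),
    Reach n G → Reach n H := by
  induction n with
  | zero => intro G H _ _ e h; haveI : Subsingleton G := h; exact e.symm.injective.subsingleton
  | succ n ih =>
    intro G H _ _ e h
    refine ih _ _ (QuotientGroup.congr _ _ e (le_antisymm (fit_le e) fun x hx => ?_)) h
    exact ⟨e.symm x, fit_le e.symm ⟨x, hx, rfl⟩, by simp⟩

section
variable {G : Type} [Group G] [Finite G] (V : Subgroup G) [hV : V.Normal] (p : ℕ) (hp : p.Prime)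
  (h1 : ∀ a ∈ V, ∀ b ∈ V, a * b = b * a) (h2 : ∀ a ∈ V, a ^ p = 1) (h3 : V.index * V.index < p)
  (h4 : ∀ g ∉ V, ∃ x ∈ V, ⁅x, g⁆ ≠ 1)
include hp h1 h2 h3 h4

theorem fit_eq : Fit G = V := by
  have hi : 0 < V.index := Nat.pos_of_ne_zero index_ne_zero_of_finite
  have hm : ∀ x ∈ V, ∀ g, ⁅x, g⁆ ∈ V := fun x hx g => by
    have := mul_mem hx (hV.conj_mem _ (inv_mem hx) g)
    simpa [commutatorElement_def, mul_assoc] using this
  have key : ∀ x ∈ V, ∀ g : G, ⁅⁅x, g⁆, g⁆ = 1 → ⁅x, g⁆ = 1 := by
    intro x hx g h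
    have hc : Commute ⁅x, g⁆ g := commutatorElement_eq_one_iff_commute.1 h
    have : ∀ k : ℕ, x * g ^ k = ⁅x, g⁆ ^ k * g ^ k * x := by
      intro k
      induction k with
      | zero => simp
      | succ k ih =>
        have e : x * g = ⁅x, g⁆ * g * x := by simp [commutatorElement_def]
        rw [pow_succ, ← mul_assoc, ih, mul_assoc _ x, e, pow_succ ⁅x, g⁆, ← mul_assoc, ← mul_assoc,
          mul_assoc _ (g ^ k), ← (hc.pow_right k).eq]
        simp only [mul_assoc]
    have h5 := this V.index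
    rw [h1 x hx _ (V.pow_index_mem g), mul_assoc] at h5
    have h6 : ⁅x, g⁆ ^ V.index = 1 := by simpa using h5.symm
    have := pow_gcd_eq_one.2 ⟨h6, h2 _ (hm x hx g)⟩
    rwa [(Nat.coprime_of_lt_prime hi.ne' (by nlinarith) hp).symm, pow_one] at this
  refine le_antisymm (sSup_le fun N hN => ?_) (le_sSup (And.intro hV ?_))
  · intro g hg
    by_contra hg'
    obtain ⟨x, hx, hx'⟩ := h4 g hg'
    obtain ⟨n, hn⟩ := (isNilpotent_iff_lowerCentralSeries N).1 hN.2
    have : ∀ k, ∃ y ∈ V, ⁅y, g⁆ ≠ 1 ∧ ⁅y, g⁆ ∈ N.lowerCentralSeries k := by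
      intro k
      induction k with
      | zero => exact ⟨x, hx, hx', mul_mem (hN.1.conj_mem g hg x) (inv_mem hg)⟩
      | succ k ih =>
        obtain ⟨y, hy, a, b⟩ := ih
        exact ⟨_, hm y hy g, fun h => a (key y hy g h), commutator_mem_commutator b hg⟩
    obtain ⟨y, _, a, b⟩ := this n
    rw [hn] at b
    exact a b
  · refine (isNilpotent_iff_lowerCentralSeries V).2 ⟨1, eq_bot_iff.2 (commutator_le.2 ?_)⟩
    exact fun a ha b hb => commutatorElement_eq_one_iff_mul_comm.2 (h1 a ha b hb)

theorem half : zeroProp G ≤ 1 / 2 := by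
  classical
  haveI := Fintype.ofFinite G
  haveI := Fact.mk hp
  have hi : 0 < V.index := Nat.pos_of_ne_zero index_ne_zero_of_finite
  set A := (Finset.univ.filter (· ∈ V)).image ConjClasses.mk with hA
  set B := (Finset.univ.filter (· ∉ V)).image ConjClasses.mk with hB
  have e1 : Nat.card V ≤ V.index * A.card := by
    have := Finset.card_le_mul_card_image (f := ConjClasses.mk) (Finset.univ.filter (· ∈ V)) V.index
      (fun b hb => by
        obtain ⟨v, hv, rfl⟩ := Finset.mem_image.1 hb
        haveI := Fintype.ofFinite (G ⧸ V)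
        rw [index_eq_card, Nat.card_eq_fintype_card]
        refine le_trans (Finset.card_le_card (t := Finset.univ.image fun c : G ⧸ V =>
          c.out * v * c.out⁻¹) fun a ha => ?_) Finset.card_image_le
        obtain ⟨g, rfl⟩ := isConj_iff.1
          (ConjClasses.mk_eq_mk_iff_isConj.1 (Finset.mem_filter.1 ha).2.symm)
        obtain ⟨u, hu⟩ := QuotientGroup.mk_out_eq_mul V g
        refine Finset.mem_image.2 ⟨g, Finset.mem_univ _, ?_⟩
        rw [hu, mul_assoc g, h1 _ u.2 v (Finset.mem_filter.1 hv).2]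
        group)
    rwa [Nat.card_eq_fintype_card, Fintype.card_subtype]
  have e2 : p * B.card ≤ V.index * Nat.card V := by
    rw [index_mul_card, Nat.card_eq_fintype_card]
    refine le_trans (Finset.mul_card_image_le_card _ p fun b hb => ?_) (Finset.card_le_univ _)
    obtain ⟨g, hg, rfl⟩ := Finset.mem_image.1 hb
    obtain ⟨x, hx, hx'⟩ := h4 g (Finset.mem_filter.1 hg).2
    have hw : ⁅x, g⁆ ∈ V := by
      have := mul_mem hx (hV.conj_mem _ (inv_mem hx) g)
      simpa [commutatorElement_def, mul_assoc] using this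
    have e : ∀ k : ℕ, x ^ k * g * (x ^ k)⁻¹ = ⁅x, g⁆ ^ k * g := by
      intro k
      induction k with
      | zero => simp
      | succ k ih =>
        calc x ^ (k + 1) * g * (x ^ (k + 1))⁻¹ = x * (x ^ k * g * (x ^ k)⁻¹) * x⁻¹ := by group
          _ = ⁅x, g⁆ ^ k * x * g * x⁻¹ := by rw [ih, ← mul_assoc, h1 x hx _ (pow_mem hw k)]
          _ = _ := by rw [pow_succ, commutatorElement_def]; group
    have ho := orderOf_eq_prime (h2 _ hw) hx'
    calc p = (Finset.range p).card := (Finset.card_range p).symm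
      _ ≤ _ := Finset.card_le_card_of_injOn (fun k => ⁅x, g⁆ ^ k * g) (fun k _ => ?_)
        fun a ha b hb h => pow_injOn_Iio_orderOf (by simpa [ho] using ha) (by simpa [ho] using hb)
          (mul_right_cancel h)
    simp only [Finset.coe_filter, Finset.mem_filter, Finset.mem_univ, true_and, Set.mem_ofPred_eq]
    refine ⟨fun h => (Finset.mem_filter.1 hg).2 ((V.mul_mem_cancel_left (pow_mem hw k)).1 h), ?_⟩
    rw [← e, eq_comm, ConjClasses.mk_eq_mk_iff_isConj]
    exact isConj_iff.2 ⟨_, rfl⟩
  have e3 : B.card ≤ A.card := by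
    by_contra h
    push Not at h
    nlinarith [Nat.mul_le_mul_left V.index e1]
  have out : ∀ g : G, (ConjClasses.mk g).out ∈ V ↔ g ∈ V := fun g => by
    obtain ⟨c, hc⟩ := isConj_iff.1 (ConjClasses.mk_eq_mk_iff_isConj.1 (Quotient.out_eq _ :
      ConjClasses.mk (ConjClasses.mk g).out = ConjClasses.mk g))
    exact ⟨fun h => hc ▸ hV.conj_mem _ h c, fun h => hV.mem_comm_iff.1 (hc ▸ h) |> fun h => by
      simpa using h⟩
  have e4 : A.card + B.card ≤ Nat.card (ConjClasses G) := by
    rw [← Finset.card_union_of_disjoint, Nat.card_eq_fintype_card]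
    · exact Finset.card_le_univ _
    · rw [Finset.disjoint_left]
      intro c ha hb
      obtain ⟨a, ha', rfl⟩ := Finset.mem_image.1 ha
      obtain ⟨b, hb', h⟩ := Finset.mem_image.1 hb
      exact (Finset.mem_filter.1 hb').2 ((out b).1 (h ▸ (out a).2 (Finset.mem_filter.1 ha').2))
  rcases finite_or_infinite (Irr G) with hf | hf
  swap
  · simp [zeroProp]
  have e5 : Nat.card {x : ConjClasses G × Irr G // x.2.1 x.1.out = 0} ≤
      B.card * Nat.card (Irr G) := by
    rw [← Nat.card_eq_finsetCard, ← Nat.card_prod]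
    refine Nat.card_le_card_of_injective (fun x => (⟨x.1.1, ?_⟩, x.1.2)) fun x y h => ?_
    · obtain ⟨⟨c, χ, n, ρ, hn, hρ, hχ⟩, h0⟩ := x
      obtain ⟨g, rfl⟩ := ConjClasses.mk_surjective c
      refine Finset.mem_image.2 ⟨g, Finset.mem_filter.2 ⟨Finset.mem_univ _, fun hg => ?_⟩, rfl⟩
      haveI : Nonempty (Fin n) := ⟨⟨0, hn⟩⟩
      have d1 := trace_zero p hp _ (by rw [← map_pow, h2 _ ((out g).2 hg), map_one])
        ((hχ _).symm.trans h0)
      have d2 := dim_le ρ hρ V h1
      have := Nat.le_of_dvd Module.finrank_pos d1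
      nlinarith
    · simp only [Prod.mk.injEq, Subtype.mk.injEq] at h
      exact Subtype.ext (Prod.ext h.1 h.2)
  refine div_le_of_le_mul₀ (by positivity) (by norm_num) ?_
  have : 2 * Nat.card {x : ConjClasses G × Irr G // x.2.1 x.1.out = 0} ≤
      Nat.card (ConjClasses G) * Nat.card (Irr G) := by nlinarith
  have : (2 : ℝ) * Nat.card {x : ConjClasses G × Irr G // x.2.1 x.1.out = 0} ≤
      Nat.card (ConjClasses G) * Nat.card (Irr G) := by exact_mod_cast this
  linarith

end

theorem step (H : Type) [Group H] [Finite H] [Group.IsSolvable H] : ∃ (G : Type) (_ : Group G),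
    Finite G ∧ Group.IsSolvable G ∧ Nontrivial G ∧ Nonempty (G ⧸ Fit G ≃* H) ∧ zeroProp G ≤ 1 / 2 := by
  classical
  obtain ⟨p, hp1, hp⟩ := Nat.exists_infinite_primes (Nat.card H * Nat.card H + 1)
  haveI := Fact.mk hp
  let G := (H → Multiplicative (ZMod p)) ⋊[mulAutArrow] H
  haveI : Finite G := Finite.of_equiv _ SemidirectProduct.equivProd.symm
  let π : G →* H := SemidirectProduct.rightHom
  have hs : Function.Surjective π := SemidirectProduct.rightHom_surjective
  have hk : ∀ a ∈ π.ker, ∃ u, SemidirectProduct.inl u = a := fun a ha => by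
    rwa [← SemidirectProduct.range_inl_eq_ker_rightHom] at ha
  have h1 : ∀ a ∈ π.ker, ∀ b ∈ π.ker, a * b = b * a := fun a ha b hb => by
    obtain ⟨u, rfl⟩ := hk a ha
    obtain ⟨v, rfl⟩ := hk b hb
    rw [← map_mul, ← map_mul, mul_comm]
  have h2 : ∀ a ∈ π.ker, a ^ p = 1 := fun a ha => by
    obtain ⟨u, rfl⟩ := hk a ha
    rw [← map_pow, ← map_one SemidirectProduct.inl]
    congr 1
    funext h
    exact Multiplicative.toAdd.injective (by simp)
  have h3 : π.ker.index * π.ker.index < p := by
    rwa [index_ker, MonoidHom.range_eq_top.2 hs, card_top]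
  have h4 : ∀ g ∉ π.ker, ∃ x ∈ π.ker, ⁅x, g⁆ ≠ 1 := fun g hg => by
    refine ⟨SemidirectProduct.inl (Pi.mulSingle 1 (Multiplicative.ofAdd 1)),
      SemidirectProduct.rightHom_inl _, fun h => ?_⟩
    have := congrFun (congrArg SemidirectProduct.left
      (commutatorElement_eq_one_iff_mul_comm.1 h)) 1
    have hg' : g.right ≠ 1 := hg
    simp only [SemidirectProduct.mul_left, SemidirectProduct.left_inl, SemidirectProduct.right_inl,
      map_one, MulAut.one_apply, Pi.mul_apply, Pi.mulSingle_eq_same] at this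
    have e : (mulAutArrow g.right (Pi.mulSingle (1 : H) (Multiplicative.ofAdd (1 : ZMod p)) :
        H → Multiplicative (ZMod p))) 1 = 1 :=
      Pi.mulSingle_eq_of_ne (M := fun _ : H => Multiplicative (ZMod p))
        (i' := g.right⁻¹ • (1 : H)) (by simpa using hg') _
    rw [e, mul_one] at this
    simp at this
  refine ⟨G, inferInstance, inferInstance, ?_, SemidirectProduct.inl_injective.nontrivial,
    ⟨(QuotientGroup.quotientMulEquivOfEq (fit_eq _ p hp h1 h2 h3 h4)).trans
      (QuotientGroup.quotientKerEquivOfSurjective π hs)⟩, half _ p hp h1 h2 h3 h4⟩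
  exact Group.isSolvable_of_ker_le_range SemidirectProduct.inl π
    SemidirectProduct.range_inl_eq_ker_rightHom.ge

theorem result (n : ℕ) : ∃ (G : Type) (_ : Group G), Finite G ∧ Group.IsSolvable G ∧
    height G = n + 1 ∧ zeroProp G ≤ 1 / 2 := by
  have key : ∀ n, ∃ (G : Type) (_ : Group G), Finite G ∧ Group.IsSolvable G ∧ Reach n G ∧
      (∀ m < n, ¬ Reach m G) ∧ (n ≠ 0 → zeroProp G ≤ 1 / 2) := by
    intro n
    induction n with
    | zero => exact ⟨Unit, inferInstance, inferInstance, inferInstance,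
        inferInstanceAs (Subsingleton Unit), by simp, by simp⟩
    | succ n ih =>
      obtain ⟨H, _, _, _, a, b, _⟩ := ih
      obtain ⟨G, _, c, d, e, ⟨f⟩, g⟩ := step H
      refine ⟨G, inferInstance, c, d, reach_congr n _ _ f.symm a, fun m hm h => ?_, fun _ => g⟩
      cases m with
      | zero => exact not_subsingleton G h
      | succ m => exact b m (by omega) (reach_congr m _ _ f h)
  obtain ⟨G, _, a, b, c, d, e⟩ := key (n + 1)
  refine ⟨G, inferInstance, a, b, le_antisymm (Nat.sInf_le c) ?_, e (by omega)⟩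
  exact le_csInf ⟨n + 1, c⟩ fun m hm => not_lt.1 fun h => d m h hm

end Pool.Agent.Results.MP_c522d4_al.FewZeros
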